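import Pool.Agent.H207.BT.Stm3

/-! Real estimates `S_REAL2` (by helper581 for helper207). -/

set_option autoImplicit false

namespace Pool.Agent.H581.BT207

open Pool.Agent.H207.BT

/-- the lower bound for `μ ^ N` -/
theorem mu_bd {C μ β c₂ r P : ℝ} {N : ℕ} (hμ : 1 < μ) (hμC : μ ≤ C) (hβ : 0 < β)
    (hlog : β * Real.log C ≤ Real.log μ / 16) (hc₂ : 0 < c₂) (hr : 0 < r) (hP : 0 < P)
    (hPC : P ≤ C ^ N) (h : c₂ ≤ r * P ^ 2) : c₂ ^ (8 * β) * r ^ (-(8 * β)) ≤ μ ^ N := by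
  have hC : 0 < C := by linarith
  have h1 : c₂ ≤ r * (C ^ N) ^ 2 :=
    h.trans (mul_le_mul_of_nonneg_left (pow_le_pow_left₀ hP.le hPC 2) hr.le)
  have h2 := Real.log_le_log hc₂ h1
  have hCN : (C ^ N) ^ 2 ≠ 0 := by positivity
  rw [Real.log_mul hr.ne' hCN, Real.log_pow, Real.log_pow] at h2
  rw [Real.rpow_def_of_pos hc₂, Real.rpow_def_of_pos hr, ← Real.exp_add,
    ← Real.exp_log (by positivity : (0 : ℝ) < μ ^ N), Real.log_pow, Real.exp_le_exp]
  have h3 : 8 * β * (Real.log c₂ - Real.log r) ≤ 8 * β * (2 * (N * Real.log C)) := by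
    refine mul_le_mul_of_nonneg_left ?_ (by positivity)
    push_cast at h2
    linarith
  have h4 : (N : ℝ) * (β * Real.log C) ≤ N * (Real.log μ / 16) :=
    mul_le_mul_of_nonneg_left hlog (Nat.cast_nonneg N)
  nlinarith

theorem t_REAL2 : S_REAL2 := by
  intro C c μ B K β σ M hc hμ hμC hB hK hβ hlog hσ hσ1
  have hB0 : 0 < B := by linarith
  have hK0 : 0 < K := by linarith
  set s : ℝ := σ / (2 * B) with hs
  have hs0 : 0 < s := by positivity
  have hs1 : s ≤ 1 := by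
    rw [hs, div_le_one (by positivity)]
    linarith
  set c₁ : ℝ := c / B with hc₁
  have hc₁0 : 0 < c₁ := by positivity
  set c₂ : ℝ := s * c₁ with hc₂
  have hc₂0 : 0 < c₂ := by positivity
  set c₃ : ℝ := c₂ ^ (8 * β) with hc₃
  have hc₃0 : 0 < c₃ := Real.rpow_pos_of_pos hc₂0 _
  set D : ℝ := min ((c₂ * c₃) ^ (1 + β)) (σ * (c₁ * c₃ * c₂ ^ β)) with hD
  have hD0 : 0 < D := lt_min (Real.rpow_pos_of_pos (mul_pos hc₂0 hc₃0) _)
    (mul_pos hσ (mul_pos (mul_pos hc₁0 hc₃0) (Real.rpow_pos_of_pos hc₂0 _)))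
  have hBK : 0 < B * K := mul_pos hB0 hK0
  refine ⟨min 1 ((D / (B * K)) ^ (1 / (7 * β))), lt_min one_pos
    (Real.rpow_pos_of_pos (div_pos hD0 hBK) _), ?_⟩
  intro r P N m hr hr0 hm _ hP hPC hrP hH
  have hr1 : r ≤ 1 := hr0.trans (min_le_left _ _)
  -- the smallness
  have hsm : B * K ≤ D * r ^ (-(7 * β)) := by
    have h1 : r ^ (7 * β) ≤ D / (B * K) := by
      have h2 := Real.rpow_le_rpow hr.le (hr0.trans (min_le_right _ _))
        (by positivity : (0 : ℝ) ≤ 7 * β)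
      rwa [← Real.rpow_mul (div_pos hD0 hBK).le, one_div, inv_mul_cancel₀ (by positivity),
        Real.rpow_one] at h2
    rw [Real.rpow_neg hr.le, ← div_eq_mul_inv, le_div_iff₀ (Real.rpow_pos_of_pos hr _)]
    rw [le_div_iff₀ hBK] at h1
    linarith
  set y : ℝ := s * (r * P) with hy
  have hy0 : 0 < y := by positivity
  have hy1 : y ≤ 1 := mul_le_one₀ hs1 (by positivity) hrP
  have hyR : (r * P) / (2 * B / σ) = y := by
    rw [hy, hs]
    field_simp
  rw [hyR] at hH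
  have hμN : 1 ≤ μ ^ N := one_le_pow₀ hμ.le
  have h1 : c₁ * μ ^ N ≤ y ^ m * P := by
    have h2 : c * μ ^ N ≤ c * μ ^ (N + 1) := by
      refine mul_le_mul_of_nonneg_left ?_ hc.le
      rw [pow_succ]
      exact le_mul_of_one_le_right (by positivity) hμ.le
    rw [hc₁, div_mul_eq_mul_div, div_le_iff₀ hB0]
    linarith
  have hZ : y ^ (m + 1) = s * r * (y ^ m * P) := by
    rw [pow_succ]
    conv_lhs => rw [hy]
    rw [← hy]
    ring
  have hZ2 : c₂ * r * μ ^ N ≤ y ^ (m + 1) := by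
    rw [hZ, hc₂]
    have := mul_le_mul_of_nonneg_left h1 (by positivity : 0 ≤ s * r)
    linarith
  have hZ1 : c₂ * r ≤ y ^ (m + 1) := by
    refine le_trans ?_ hZ2
    exact le_mul_of_one_le_right (by positivity) hμN
  have hZ0 : 0 < y ^ (m + 1) := by positivity
  have hy2 : y ^ (m + 1) ≤ y ^ 2 := pow_le_pow_of_le_one hy0.le hy1 (by omega)
  have h3 : c₂ ≤ r * P ^ 2 := by
    have h4 : c₂ * r ≤ (r * P ^ 2) * r := by
      have h5 : y ^ 2 ≤ (r * P) ^ 2 := by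
        refine pow_le_pow_left₀ hy0.le ?_ 2
        exact mul_le_of_le_one_left (by positivity) hs1
      calc c₂ * r ≤ (r * P) ^ 2 := hZ1.trans (hy2.trans h5)
        _ = (r * P ^ 2) * r := by ring
    exact le_of_mul_le_mul_right h4 hr
  have hmu := mu_bd hμ hμC hβ hlog hc₂0 hr hP hPC h3
  rw [← hc₃] at hmu
  -- the first estimate
  have hA : B * K * r ≤ (y ^ (m + 1)) ^ (1 + β) := by
    have e1 : (c₂ * c₃) * r ^ (1 - 8 * β) ≤ y ^ (m + 1) := by
      refine le_trans ?_ hZ2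
      have e2 : r ^ (1 - 8 * β) = r * r ^ (-(8 * β)) := by
        rw [show 1 - 8 * β = 1 + (-(8 * β)) by ring, Real.rpow_add hr, Real.rpow_one]
      rw [e2]
      have := mul_le_mul_of_nonneg_left hmu (by positivity : 0 ≤ c₂ * r)
      linarith
    have e3 : 0 < r ^ (1 - 8 * β) := Real.rpow_pos_of_pos hr _
    have e4 := Real.rpow_le_rpow (by positivity) e1 (by positivity : (0 : ℝ) ≤ 1 + β)
    rw [Real.mul_rpow (by positivity) e3.le, ← Real.rpow_mul hr.le] at e4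
    refine le_trans ?_ e4
    have e5 : r * r ^ (-(7 * β)) ≤ r ^ ((1 - 8 * β) * (1 + β)) := by
      rw [show (1 - 8 * β) * (1 + β) = 1 + (-(7 * β) - 8 * β ^ 2) by ring, Real.rpow_add hr,
        Real.rpow_one]
      refine mul_le_mul_of_nonneg_left ?_ hr.le
      exact Real.rpow_le_rpow_of_exponent_ge hr hr1 (by nlinarith [sq_nonneg β])
    have e6 : 0 < r ^ (-(7 * β)) := Real.rpow_pos_of_pos hr _
    calc B * K * r ≤ D * r ^ (-(7 * β)) * r := mul_le_mul_of_nonneg_right hsm hr.le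
      _ = D * (r * r ^ (-(7 * β))) := by ring
      _ ≤ (c₂ * c₃) ^ (1 + β) * (r * r ^ (-(7 * β))) :=
          mul_le_mul_of_nonneg_right (min_le_left _ _) (by positivity)
      _ ≤ (c₂ * c₃) ^ (1 + β) * r ^ ((1 - 8 * β) * (1 + β)) :=
          mul_le_mul_of_nonneg_left e5 (Real.rpow_pos_of_pos (mul_pos hc₂0 hc₃0) _).le
  refine ⟨?_, fun y' hy'1 _ => ⟨?_, ?_⟩⟩
  · refine le_trans ?_ hA
    have e1 : K * r ≤ B * (K * r) := le_mul_of_one_le_left (by positivity) hB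
    rwa [← mul_assoc] at e1
  · refine hA.trans ?_
    have e1 : (y ^ (m + 1)) ^ (1 + β) = (y ^ (1 + β)) ^ (m + 1) := by
      rw [← Real.rpow_natCast, ← Real.rpow_natCast, ← Real.rpow_mul hy0.le, ← Real.rpow_mul hy0.le,
        mul_comm]
    rw [e1]
    exact pow_le_pow_left₀ (Real.rpow_pos_of_pos hy0 _).le hy'1 _
  · have e1 : y ^ m * (y ^ m) ^ β = (y ^ (1 + β)) ^ m := by
      have hym : 0 < y ^ m := by positivity
      rw [← Real.rpow_one (y ^ m), ← Real.rpow_mul hym.le, one_mul, ← Real.rpow_add hym]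
      rw [← Real.rpow_natCast, ← Real.rpow_natCast, ← Real.rpow_mul hy0.le, ← Real.rpow_mul hy0.le,
        mul_comm]
    have e2 : (y ^ (1 + β)) ^ m ≤ y' ^ m :=
      pow_le_pow_left₀ (Real.rpow_pos_of_pos hy0 _).le hy'1 _
    have e3 : c₂ * r ≤ y ^ m := hZ1.trans (pow_le_pow_of_le_one hy0.le hy1 (Nat.le_succ m))
    have e4 : (c₂ * r) ^ β ≤ (y ^ m) ^ β := Real.rpow_le_rpow (by positivity) e3 hβ.le
    rw [Real.mul_rpow hc₂0.le hr.le] at e4
    have e5 : 0 < r ^ (-(7 * β)) := Real.rpow_pos_of_pos hr _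
    have e6 : r ^ (-(7 * β)) = r ^ (-(8 * β)) * r ^ β := by
      rw [← Real.rpow_add hr]
      congr 1
      ring
    have hrb : 0 < r ^ β := Real.rpow_pos_of_pos hr _
    have hcb : 0 < c₂ ^ β := Real.rpow_pos_of_pos hc₂0 _
    have h8 : 0 < r ^ (-(8 * β)) := Real.rpow_pos_of_pos hr _
    have e7 : (c₁ * c₃ * c₂ ^ β) * r ^ (-(7 * β)) ≤ y' ^ m * P := by
      calc (c₁ * c₃ * c₂ ^ β) * r ^ (-(7 * β))
          = (c₁ * (c₃ * r ^ (-(8 * β)))) * (c₂ ^ β * r ^ β) := by rw [e6]; ring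
        _ ≤ (c₁ * μ ^ N) * (c₂ ^ β * r ^ β) :=
            mul_le_mul_of_nonneg_right (mul_le_mul_of_nonneg_left hmu hc₁0.le) (by positivity)
        _ ≤ (y ^ m * P) * (c₂ ^ β * r ^ β) := mul_le_mul_of_nonneg_right h1 (by positivity)
        _ ≤ (y ^ m * P) * (y ^ m) ^ β := mul_le_mul_of_nonneg_left e4 (by positivity)
        _ = (y ^ m * (y ^ m) ^ β) * P := by ring
        _ ≤ y' ^ m * P := by
            rw [e1]
            exact mul_le_mul_of_nonneg_right e2 hP.le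
    calc B * K ≤ D * r ^ (-(7 * β)) := hsm
      _ ≤ (σ * (c₁ * c₃ * c₂ ^ β)) * r ^ (-(7 * β)) :=
          mul_le_mul_of_nonneg_right (min_le_right _ _) e5.le
      _ = σ * ((c₁ * c₃ * c₂ ^ β) * r ^ (-(7 * β))) := by ring
      _ ≤ σ * (y' ^ m * P) := mul_le_mul_of_nonneg_left e7 hσ.le

end Pool.Agent.H581.BT207
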